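import Mathlib

/-!
# Core counting lemma for one-bend orthogonal box drawings

Integer boxes `[la,ha] × [lb,hb] × [lc,hc]` indexed by `V`, pairwise disjoint, all members of `S`
crossing the plane `c = z`.  For a box `m` we bound the number of boxes `o` that are related to `m`
by a short overlap or by a short L-shaped route leaving `m`, where `m` ends first.
-/

set_option autoImplicit false

namespace Pool.Agent.U446.OB

section Core

variable {V : Type*} [DecidableEq V]

/-- The `b`-interval of `o` contains the lower `b`-end of `m`, and the `a`-gap is at most `g`. -/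
def Ov (la ha lb hb : V → ℤ) (g : ℤ) (m o : V) : Prop :=
  m ≠ o ∧ lb o ≤ lb m ∧ lb m ≤ hb o ∧ la o - ha m ≤ g ∧ la m - ha o ≤ g

/-- A short L-shaped connection from `m` (leaving in direction `a`) to `o` (arriving in direction
`b`), in the plane `c = h`, where `m` ends before `o` on the side of `h`. -/
def HL (la ha lb hb lc hc : V → ℤ) (S : Finset V) (z g : ℤ) (m o : V) : Prop :=
  ∃ a b h : ℤ, la o ≤ a ∧ a ≤ ha o ∧ (a < la m ∨ ha m < a) ∧ a - ha m ≤ g ∧ la m - a ≤ g ∧
    lb m ≤ b ∧ b ≤ hb m ∧ (hb m < lb o ∨ hb o < lb m) ∧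
    ((z ≤ h ∧ h ≤ hc m ∧ hc m ≤ hc o) ∨ (h ≤ z ∧ lc m ≤ h ∧ lc o ≤ lc m)) ∧
    ∀ w ∈ S, ∀ y, la w ≤ a → a ≤ ha w → lb w ≤ y → y ≤ hb w → lc w ≤ h → h ≤ hc w →
      ((b ≤ y ∧ y < lb o) ∨ (hb o < y ∧ y ≤ b)) → False

open scoped Classical in
theorem card_Ov (la ha lb hb lc hc : V → ℤ)
    (hdis : ∀ u v, u ≠ v → ha u < la v ∨ ha v < la u ∨ hb u < lb v ∨ hb v < lb u ∨
      hc u < lc v ∨ hc v < lc u)
    (hA : ∀ u, la u ≤ ha u) (hB : ∀ u, lb u ≤ hb u)
    (S : Finset V) (z : ℤ) (hS : ∀ u ∈ S, lc u ≤ z ∧ z ≤ hc u) (g : ℕ) (m : V) (hm : m ∈ S) :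
    (S.filter (fun o => Ov la ha lb hb g m o)).card ≤ 2 * g := by
  have hcard : ((Finset.univ : Finset Bool) ×ˢ Finset.Icc (1 : ℤ) g).card = 2 * g := by
    rw [Finset.card_product, Int.card_Icc]
    simp
  rw [← hcard]
  refine Finset.card_le_card_of_forall_subsingleton
    (fun o c => (c.1 = true → la o = ha m + c.2) ∧ (c.1 = false → ha o = la m - c.2)) ?_ ?_
  · intro o ho
    rw [Finset.mem_filter] at ho
    obtain ⟨hoS, hne, h1, h2, h3, h4⟩ := ho
    have hzm := hS m hm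
    have hzo := hS o hoS
    have hbm := hB m
    have hd := hdis m o hne
    by_cases hc1 : ha m < la o
    · refine ⟨(true, la o - ha m), ?_, ?_, ?_⟩
      · simp only [Finset.mem_product, Finset.mem_univ, Finset.mem_Icc, true_and]
        omega
      · intro _
        simp only
        omega
      · intro h
        simp at h
    · have hc2 : ha o < la m := by omega
      refine ⟨(false, la m - ha o), ?_, ?_, ?_⟩
      · simp only [Finset.mem_product, Finset.mem_univ, Finset.mem_Icc, true_and]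
        omega
      · intro h
        simp at h
      · intro _
        simp only
        omega
  · rintro ⟨σ, d⟩ hcc
    rintro o ⟨ho, h1, h2⟩ o' ⟨ho', h1', h2'⟩
    rw [Finset.mem_filter] at ho ho'
    obtain ⟨hoS, hne, g1, g2, g3, g4⟩ := ho
    obtain ⟨hoS', hne', g1', g2', g3', g4'⟩ := ho'
    by_contra hoo
    have hd := hdis o o' hoo
    have hz := hS o hoS
    have hz' := hS o' hoS'
    have hA1 := hA o
    have hA2 := hA o'
    cases σ with
    | true =>
      have e1 := h1 rfl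
      have e2 := h1' rfl
      simp only at e1 e2
      omega
    | false =>
      have e1 := h2 rfl
      have e2 := h2' rfl
      simp only at e1 e2
      omega

open scoped Classical in
theorem card_HL (la ha lb hb lc hc : V → ℤ)
    (hdis : ∀ u v, u ≠ v → ha u < la v ∨ ha v < la u ∨ hb u < lb v ∨ hb v < lb u ∨
      hc u < lc v ∨ hc v < lc u)
    (hB : ∀ u, lb u ≤ hb u)
    (S : Finset V) (z : ℤ) (hS : ∀ u ∈ S, lc u ≤ z ∧ z ≤ hc u) (g : ℕ) (m : V) (hm : m ∈ S) :
    (S.filter (fun o => HL la ha lb hb lc hc S z g m o)).card ≤ 8 * g := by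
  have hcard : ((Finset.univ : Finset (Bool × Bool × Bool)) ×ˢ Finset.Icc (1 : ℤ) g).card
      = 8 * g := by
    rw [Finset.card_product, Int.card_Icc]
    simp
  rw [← hcard]
  refine Finset.card_le_card_of_forall_subsingleton
    (fun o c => ∃ a b h : ℤ, (c.1.1 = true → a = ha m + c.2) ∧ (c.1.1 = false → a = la m - c.2) ∧
      la o ≤ a ∧ a ≤ ha o ∧ lb m ≤ b ∧ b ≤ hb m ∧
      (c.1.2.1 = true → hb m < lb o) ∧ (c.1.2.1 = false → hb o < lb m) ∧
      (c.1.2.2 = true → z ≤ h ∧ h ≤ hc m ∧ hc m ≤ hc o) ∧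
      (c.1.2.2 = false → h ≤ z ∧ lc m ≤ h ∧ lc o ≤ lc m) ∧
      ∀ w ∈ S, ∀ y, la w ≤ a → a ≤ ha w → lb w ≤ y → y ≤ hb w → lc w ≤ h → h ≤ hc w →
        ((b ≤ y ∧ y < lb o) ∨ (hb o < y ∧ y ≤ b)) → False) ?_ ?_
  · intro o ho
    rw [Finset.mem_filter] at ho
    obtain ⟨hoS, a, b, h, h1, h2, h3, h4, h5, h6, h7, h8, h9, hfree⟩ := ho
    obtain ⟨σ, d, hd, hσ1, hσ2⟩ : ∃ (σ : Bool) (d : ℤ), (1 ≤ d ∧ d ≤ g) ∧
        (σ = true → a = ha m + d) ∧ (σ = false → a = la m - d) := by
      by_cases hc : ha m < a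
      · exact ⟨true, a - ha m, by omega, by intro _; omega, by intro h; simp at h⟩
      · exact ⟨false, la m - a, by omega, by intro h; simp at h, by intro _; omega⟩
    obtain ⟨τ, hτ1, hτ2⟩ : ∃ τ : Bool, (τ = true → hb m < lb o) ∧ (τ = false → hb o < lb m) := by
      rcases h8 with h8 | h8
      · exact ⟨true, fun _ => h8, by intro h; simp at h⟩
      · exact ⟨false, by intro h; simp at h, fun _ => h8⟩
    obtain ⟨ρ, hρ1, hρ2⟩ : ∃ ρ : Bool, (ρ = true → z ≤ h ∧ h ≤ hc m ∧ hc m ≤ hc o) ∧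
        (ρ = false → h ≤ z ∧ lc m ≤ h ∧ lc o ≤ lc m) := by
      rcases h9 with h9 | h9
      · exact ⟨true, fun _ => h9, by intro h; simp at h⟩
      · exact ⟨false, by intro h; simp at h, fun _ => h9⟩
    refine ⟨((σ, τ, ρ), d), ?_, a, b, h, hσ1, hσ2, h1, h2, h6, h7, hτ1, hτ2, hρ1, hρ2, hfree⟩
    simp only [Finset.mem_product, Finset.mem_univ, Finset.mem_Icc, true_and]
    exact hd
  · rintro ⟨⟨σ, τ, ρ⟩, d⟩ hcc
    rintro o ⟨ho, a, b, h, s1, s2, a1, a2, b1, b2, t1, t2, r1, r2, hfree⟩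
      o' ⟨ho', a', b', h', s1', s2', a1', a2', b1', b2', t1', t2', r1', r2', hfree'⟩
    rw [Finset.mem_filter] at ho ho'
    have hoS := ho.1
    have hoS' := ho'.1
    clear ho ho'
    simp only at s1 s2 t1 t2 r1 r2 s1' s2' t1' t2' r1' r2'
    by_contra hoo
    have hd := hdis o o' hoo
    have hz := hS o hoS
    have hz' := hS o' hoS'
    have hzm := hS m hm
    have hB1 := hB o
    have hB2 := hB o'
    have haa : a = a' := by
      cases σ with
      | true => rw [s1 rfl, s1' rfl]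
      | false => rw [s2 rfl, s2' rfl]
    subst haa
    have hbb : hb o < lb o' ∨ hb o' < lb o := by omega
    have hin : lc o ≤ h' ∧ h' ≤ hc o ∧ lc o' ≤ h ∧ h ≤ hc o' := by
      cases ρ with
      | true =>
        have q1 := r1 rfl
        have q2 := r1' rfl
        omega
      | false =>
        have q1 := r2 rfl
        have q2 := r2' rfl
        omega
    cases τ with
    | true =>
      have q1 := t1 rfl
      have q2 := t1' rfl
      rcases hbb with hbb | hbb
      · exact hfree' o hoS (lb o) a1 a2 le_rfl hB1 hin.1 hin.2.1 (Or.inl ⟨by omega, by omega⟩)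
      · exact hfree o' hoS' (lb o') a1' a2' le_rfl hB2 hin.2.2.1 hin.2.2.2
          (Or.inl ⟨by omega, by omega⟩)
    | false =>
      have q1 := t2 rfl
      have q2 := t2' rfl
      rcases hbb with hbb | hbb
      · exact hfree o' hoS' (hb o') a1' a2' hB2 le_rfl hin.2.2.1 hin.2.2.2
          (Or.inr ⟨by omega, by omega⟩)
      · exact hfree' o hoS (hb o) a1 a2 hB1 le_rfl hin.1 hin.2.1 (Or.inr ⟨by omega, by omega⟩)

/-- `m` and `o` are related by one of the four kinds of short connection, charged to `m`. -/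
def Rel (la ha lb hb lc hc : V → ℤ) (S : Finset V) (z g : ℤ) (m o : V) : Prop :=
  Ov la ha lb hb g m o ∨ Ov lb hb la ha g m o ∨
    HL la ha lb hb lc hc S z g m o ∨ HL lb hb la ha lc hc S z g m o

open scoped Classical in
theorem card_Rel (la ha lb hb lc hc : V → ℤ)
    (hdis : ∀ u v, u ≠ v → ha u < la v ∨ ha v < la u ∨ hb u < lb v ∨ hb v < lb u ∨
      hc u < lc v ∨ hc v < lc u)
    (hA : ∀ u, la u ≤ ha u) (hB : ∀ u, lb u ≤ hb u)
    (S : Finset V) (z : ℤ) (hS : ∀ u ∈ S, lc u ≤ z ∧ z ≤ hc u) (g : ℕ) (m : V) (hm : m ∈ S) :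
    (S.filter (fun o => Rel la ha lb hb lc hc S z g m o)).card ≤ 20 * g := by
  have hdis' : ∀ u v, u ≠ v → hb u < lb v ∨ hb v < lb u ∨ ha u < la v ∨ ha v < la u ∨
      hc u < lc v ∨ hc v < lc u := by
    intro u v huv
    have := hdis u v huv
    omega
  have h1 := card_Ov la ha lb hb lc hc hdis hA hB S z hS g m hm
  have h2 := card_Ov lb hb la ha lc hc hdis' hB hA S z hS g m hm
  have h3 := card_HL la ha lb hb lc hc hdis hB S z hS g m hm
  have h4 := card_HL lb hb la ha lc hc hdis' hA S z hS g m hm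
  have hsub : S.filter (fun o => Rel la ha lb hb lc hc S z g m o) ⊆
      S.filter (fun o => Ov la ha lb hb g m o) ∪ (S.filter (fun o => Ov lb hb la ha g m o) ∪
      (S.filter (fun o => HL la ha lb hb lc hc S z g m o) ∪
        S.filter (fun o => HL lb hb la ha lc hc S z g m o))) := by
    intro o ho
    simp only [Finset.mem_union, Finset.mem_filter] at ho ⊢
    obtain ⟨hoS, hr⟩ := ho
    rcases hr with hr | hr | hr | hr
    · exact Or.inl ⟨hoS, hr⟩
    · exact Or.inr (Or.inl ⟨hoS, hr⟩)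
    · exact Or.inr (Or.inr (Or.inl ⟨hoS, hr⟩))
    · exact Or.inr (Or.inr (Or.inr ⟨hoS, hr⟩))
  have := Finset.card_le_card hsub
  have u1 := Finset.card_union_le (S.filter (fun o => Ov la ha lb hb g m o))
    (S.filter (fun o => Ov lb hb la ha g m o) ∪
      (S.filter (fun o => HL la ha lb hb lc hc S z g m o) ∪
        S.filter (fun o => HL lb hb la ha lc hc S z g m o)))
  have u2 := Finset.card_union_le (S.filter (fun o => Ov lb hb la ha g m o))
      (S.filter (fun o => HL la ha lb hb lc hc S z g m o) ∪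
        S.filter (fun o => HL lb hb la ha lc hc S z g m o))
  have u3 := Finset.card_union_le (S.filter (fun o => HL la ha lb hb lc hc S z g m o))
        (S.filter (fun o => HL lb hb la ha lc hc S z g m o))
  omega

open scoped Classical in
/-- Pairs `i < j` in `S` that are related in one of the two orders, when every member of `S` is
related to at most `c` members of `S`. -/
theorem card_pairs {n : ℕ} (R : Fin n → Fin n → Prop) (S : Finset (Fin n)) (c : ℕ)
    (hR : ∀ m ∈ S, (S.filter (fun o => R m o)).card ≤ c)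
    (P : Finset (Fin n × Fin n))
    (hP : ∀ p ∈ P, p.1 ∈ S ∧ p.2 ∈ S ∧ p.1 < p.2 ∧ (R p.1 p.2 ∨ R p.2 p.1)) :
    P.card ≤ c * S.card := by
  set Q : Finset (Fin n × Fin n) := (S ×ˢ S).filter (fun p => R p.1 p.2) with hQ
  have h1 : P.card ≤ Q.card := by
    refine Finset.card_le_card_of_forall_subsingleton
      (fun p q => p.1 < p.2 ∧ (q = p ∨ q = (p.2, p.1))) ?_ ?_
    · intro p hp
      obtain ⟨h1, h2, h3, h4⟩ := hP p hp
      rcases h4 with h4 | h4
      · refine ⟨p, ?_, h3, Or.inl rfl⟩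
        rw [hQ, Finset.mem_filter, Finset.mem_product]
        exact ⟨⟨h1, h2⟩, h4⟩
      · refine ⟨(p.2, p.1), ?_, h3, Or.inr rfl⟩
        rw [hQ, Finset.mem_filter, Finset.mem_product]
        exact ⟨⟨h2, h1⟩, h4⟩
    · rintro q _ p ⟨_, hlt, hp⟩ p' ⟨_, hlt', hp'⟩
      rcases hp with hp | hp <;> rcases hp' with hp' | hp'
      · rw [← hp, ← hp']
      · subst hp
        rw [hp'] at hlt
        exact absurd hlt (not_lt.2 hlt'.le)
      · subst hp'
        rw [hp] at hlt'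
        exact absurd hlt' (not_lt.2 hlt.le)
      · rw [hp] at hp'
        have e1 := congrArg Prod.fst hp'
        have e2 := congrArg Prod.snd hp'
        simp only at e1 e2
        exact Prod.ext e2 e1
  have h2 : Q.card ≤ ∑ m ∈ S, (S.filter (fun o => R m o)).card := by
    have : Q ⊆ S.biUnion (fun m => (S.filter (fun o => R m o)).image (fun o => (m, o))) := by
      intro q hq
      rw [hQ, Finset.mem_filter, Finset.mem_product] at hq
      rw [Finset.mem_biUnion]
      refine ⟨q.1, hq.1.1, ?_⟩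
      rw [Finset.mem_image]
      exact ⟨q.2, Finset.mem_filter.2 ⟨hq.1.2, hq.2⟩, rfl⟩
    refine (Finset.card_le_card this).trans (Finset.card_biUnion_le.trans ?_)
    exact Finset.sum_le_sum fun m _ => Finset.card_image_le
  have h3 : ∑ m ∈ S, (S.filter (fun o => R m o)).card ≤ ∑ _m ∈ S, c :=
    Finset.sum_le_sum fun m hm => hR m hm
  rw [Finset.sum_const, smul_eq_mul] at h3
  calc P.card ≤ Q.card := h1
    _ ≤ _ := h2
    _ ≤ S.card * c := h3
    _ = c * S.card := by ring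

open scoped Classical in
/-- The number of pairs `i < j` in `S` that are related is at most `20 g |S|`. -/
theorem card_short {n : ℕ} (la ha lb hb lc hc : Fin n → ℤ)
    (hdis : ∀ u v, u ≠ v → ha u < la v ∨ ha v < la u ∨ hb u < lb v ∨ hb v < lb u ∨
      hc u < lc v ∨ hc v < lc u)
    (hA : ∀ u, la u ≤ ha u) (hB : ∀ u, lb u ≤ hb u)
    (S : Finset (Fin n)) (z : ℤ) (hS : ∀ u ∈ S, lc u ≤ z ∧ z ≤ hc u) (g : ℕ)
    (P : Finset (Fin n × Fin n))
    (hP : ∀ p ∈ P, p.1 ∈ S ∧ p.2 ∈ S ∧ p.1 < p.2 ∧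
      (Rel la ha lb hb lc hc S z g p.1 p.2 ∨ Rel la ha lb hb lc hc S z g p.2 p.1)) :
    P.card ≤ 20 * g * S.card :=
  card_pairs (fun m o => Rel la ha lb hb lc hc S z g m o) S (20 * g)
    (fun m hm => card_Rel la ha lb hb lc hc hdis hA hB S z hS g m hm) P hP

/-- Number of pairs `i < j` in `S`. -/
theorem card_lt_pairs {n : ℕ} (S : Finset (Fin n)) :
    S.card * (S.card - 1) ≤ 2 * ((S ×ˢ S).filter (fun p => p.1 < p.2)).card := by
  have h1 : S.offDiag ⊆ ((S ×ˢ S).filter (fun p => p.1 < p.2)) ∪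
      ((S ×ˢ S).filter (fun p => p.1 < p.2)).image Prod.swap := by
    intro p hp
    rw [Finset.mem_offDiag] at hp
    obtain ⟨h1, h2, h3⟩ := hp
    rw [Finset.mem_union, Finset.mem_filter, Finset.mem_image]
    rcases lt_or_gt_of_ne h3 with h | h
    · exact Or.inl ⟨Finset.mem_product.2 ⟨h1, h2⟩, h⟩
    · refine Or.inr ⟨(p.2, p.1), ?_, rfl⟩
      rw [Finset.mem_filter]
      exact ⟨Finset.mem_product.2 ⟨h2, h1⟩, h⟩
  have h2 := Finset.card_le_card h1
  have h3 := Finset.card_union_le ((S ×ˢ S).filter (fun p => p.1 < p.2))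
      (((S ×ˢ S).filter (fun p => p.1 < p.2)).image Prod.swap)
  have h4 : (((S ×ˢ S).filter (fun p => p.1 < p.2)).image Prod.swap).card ≤
      ((S ×ˢ S).filter (fun p => p.1 < p.2)).card := Finset.card_image_le
  rw [Finset.offDiag_card] at h2
  rw [Nat.mul_sub, mul_one]
  omega

open scoped Classical in
/-- Many overlapping pairs of intervals force a point that lies in many intervals. -/
theorem clique {n : ℕ} (hn : 1 ≤ n) (l h : Fin n → ℤ) (hlh : ∀ v, l v ≤ h v)
    (O : Finset (Fin n × Fin n))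
    (hO : ∀ p ∈ O, p.1 < p.2 ∧ l p.1 ≤ h p.2 ∧ l p.2 ≤ h p.1) :
    ∃ z, 1 ≤ (Finset.univ.filter (fun u => l u ≤ z ∧ z ≤ h u)).card ∧
      O.card ≤ n * ((Finset.univ.filter (fun u => l u ≤ z ∧ z ≤ h u)).card - 1) := by
  have : Nonempty (Fin n) := ⟨⟨0, hn⟩⟩
  obtain ⟨v, -, hv⟩ := Finset.exists_max_image (Finset.univ : Finset (Fin n))
    (fun v => (Finset.univ.filter (fun u => l u ≤ l v ∧ l v ≤ h u)).card)
    Finset.univ_nonempty
  refine ⟨l v, ?_, ?_⟩
  · rw [Nat.one_le_iff_ne_zero, ← Nat.pos_iff_ne_zero, Finset.card_pos]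
    exact ⟨v, by simp [hlh v]⟩
  have key : ∀ m ∈ (Finset.univ : Finset (Fin n)),
      (Finset.univ.filter (fun o => o ≠ m ∧ l o ≤ l m ∧ l m ≤ h o)).card ≤
        (Finset.univ.filter (fun u => l u ≤ l v ∧ l v ≤ h u)).card - 1 := by
    intro m _
    have h1 := hv m (Finset.mem_univ m)
    have h2 : Finset.univ.filter (fun o => o ≠ m ∧ l o ≤ l m ∧ l m ≤ h o) =
        (Finset.univ.filter (fun u => l u ≤ l m ∧ l m ≤ h u)).erase m := by
      ext o
      simp [Finset.mem_erase]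
    rw [h2, Finset.card_erase_of_mem (by simp [hlh m])]
    omega
  have h3 := card_pairs (fun m o => o ≠ m ∧ l o ≤ l m ∧ l m ≤ h o) Finset.univ
    ((Finset.univ.filter (fun u => l u ≤ l v ∧ l v ≤ h u)).card - 1)
    (fun m hm => by convert key m hm) O ?_
  · rw [Finset.card_univ, Fintype.card_fin] at h3
    rw [mul_comm]
    exact h3
  · intro p hp
    obtain ⟨h1, h2, h3⟩ := hO p hp
    refine ⟨Finset.mem_univ _, Finset.mem_univ _, h1, ?_⟩
    rcases le_total (l p.1) (l p.2) with h4 | h4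
    · exact Or.inr ⟨h1.ne, h4, h3⟩
    · exact Or.inl ⟨h1.ne', h4, h2⟩

/-- A short one-bend route makes its pair related. -/
theorem rel_of_route {n : ℕ} (la ha lb hb lc hc : Fin n → ℤ)
    (S : Finset (Fin n)) (z : ℤ) (hS : ∀ u ∈ S, lc u ≤ z ∧ z ≤ hc u) (g : ℤ)
    (hdis : ∀ u v, u ≠ v → ha u < la v ∨ ha v < la u ∨ hb u < lb v ∨ hb v < lb u ∨
      hc u < lc v ∨ hc v < lc u)
    (hA : ∀ u, la u ≤ ha u) (hB : ∀ u, lb u ≤ hb u)
    (i j : Fin n) (hi : i ∈ S) (hj : j ∈ S) (hij : i ≠ j)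
    (sa sb sc qa qb qc ta tb tc : ℤ)
    (hsi : la i ≤ sa ∧ sa ≤ ha i ∧ lb i ≤ sb ∧ sb ≤ hb i ∧ lc i ≤ sc ∧ sc ≤ hc i)
    (htj : la j ≤ ta ∧ ta ≤ ha j ∧ lb j ≤ tb ∧ tb ≤ hb j ∧ lc j ≤ tc ∧ tc ≤ hc j)
    (hsq : (sb = qb ∧ sc = qc) ∨ (sa = qa ∧ sc = qc) ∨ (sa = qa ∧ sb = qb))
    (hqt : (qb = tb ∧ qc = tc) ∨ (qa = ta ∧ qc = tc) ∨ (qa = ta ∧ qb = tb))
    (hfree : ∀ w ∈ S, ∀ x y h : ℤ,
      ((min sa qa ≤ x ∧ x ≤ max sa qa ∧ min sb qb ≤ y ∧ y ≤ max sb qb ∧
        min sc qc ≤ h ∧ h ≤ max sc qc) ∨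
       (min qa ta ≤ x ∧ x ≤ max qa ta ∧ min qb tb ≤ y ∧ y ≤ max qb tb ∧
        min qc tc ≤ h ∧ h ≤ max qc tc)) →
      la w ≤ x → x ≤ ha w → lb w ≤ y → y ≤ hb w → lc w ≤ h → h ≤ hc w →
      (x = sa ∧ y = sb ∧ h = sc) ∨ (x = ta ∧ y = tb ∧ h = tc))
    (hga : sa - ta ≤ g ∧ ta - sa ≤ g) (hgb : sb - tb ≤ g ∧ tb - sb ≤ g) :
    Rel la ha lb hb lc hc S z g i j ∨ Rel la ha lb hb lc hc S z g j i := by
  have hzi := hS i hi
  have hzj := hS j hj
  have hd := hdis i j hij
  have hAi := hA i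
  have hAj := hA j
  have hBi := hB i
  have hBj := hB j
  by_cases hob : lb i ≤ hb j ∧ lb j ≤ hb i
  · by_cases hle : lb j ≤ lb i
    · exact Or.inl (Or.inl ⟨hij, hle, hob.1, by omega, by omega⟩)
    · exact Or.inr (Or.inl ⟨hij.symm, by omega, hob.2, by omega, by omega⟩)
  by_cases hoa : la i ≤ ha j ∧ la j ≤ ha i
  · by_cases hle : la j ≤ la i
    · exact Or.inl (Or.inr (Or.inl ⟨hij, hle, hoa.1, by omega, by omega⟩))
    · exact Or.inr (Or.inr (Or.inl ⟨hij.symm, by omega, hoa.2, by omega, by omega⟩))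
  have hsep : (hb i < lb j ∨ hb j < lb i) ∧ (ha i < la j ∨ ha j < la i) := by omega
  have hcase : (qa = ta ∧ qb = sb ∧ qc = sc ∧ tc = sc) ∨
      (qa = sa ∧ qb = tb ∧ qc = sc ∧ tc = sc) := by omega
  -- which of the two boxes ends first
  have hfirst : ((z ≤ sc ∧ sc ≤ hc i ∧ hc i ≤ hc j) ∨ (sc ≤ z ∧ lc i ≤ sc ∧ lc j ≤ lc i)) ∨
      ((z ≤ sc ∧ sc ≤ hc j ∧ hc j ≤ hc i) ∨ (sc ≤ z ∧ lc j ≤ sc ∧ lc i ≤ lc j)) := by
    have e : tc = sc := by omega
    rw [e] at htj
    omega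
  obtain ⟨hsb', hsa'⟩ := hsep
  rcases hcase with ⟨e1, e2, e3, e4⟩ | ⟨e1, e2, e3, e4⟩
  · rcases hfirst with hf | hf
    · -- HL from i, leaving along a
      refine Or.inl (Or.inr (Or.inr (Or.inl ⟨ta, sb, sc, by omega, by omega, by omega, by omega,
        by omega, by omega, by omega, by omega, hf, ?_⟩)))
      intro w hw y w1 w2 w3 w4 w5 w6 hy
      have := hfree w hw ta y sc (Or.inr ⟨by omega, by omega, by omega, by omega, by omega,
        by omega⟩) w1 w2 w3 w4 w5 w6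
      omega
    · -- HL from j, leaving along b
      refine Or.inr (Or.inr (Or.inr (Or.inr ⟨sb, ta, sc, by omega, by omega, by omega, by omega,
        by omega, by omega, by omega, by omega, hf, ?_⟩)))
      intro w hw x w1 w2 w3 w4 w5 w6 hx
      have := hfree w hw x sb sc (Or.inl ⟨by omega, by omega, by omega, by omega, by omega,
        by omega⟩) w3 w4 w1 w2 w5 w6
      omega
  · rcases hfirst with hf | hf
    · -- HL from i, leaving along b
      refine Or.inl (Or.inr (Or.inr (Or.inr ⟨tb, sa, sc, by omega, by omega, by omega, by omega,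
        by omega, by omega, by omega, by omega, hf, ?_⟩)))
      intro w hw x w1 w2 w3 w4 w5 w6 hx
      have := hfree w hw x tb sc (Or.inr ⟨by omega, by omega, by omega, by omega, by omega,
        by omega⟩) w3 w4 w1 w2 w5 w6
      omega
    · -- HL from j, leaving along a
      refine Or.inr (Or.inr (Or.inr (Or.inl ⟨sa, tb, sc, by omega, by omega, by omega, by omega,
        by omega, by omega, by omega, by omega, hf, ?_⟩)))
      intro w hw y w1 w2 w3 w4 w5 w6 hy
      have := hfree w hw sa y sc (Or.inl ⟨by omega, by omega, by omega, by omega, by omega,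
        by omega⟩) w1 w2 w3 w4 w5 w6
      omega

end Core

end Pool.Agent.U446.OB
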