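import Mathlib

/-!
# One-bend orthogonal box drawings of complete graphs in three dimensions: definitions
(MP_40073f_co)

All coordinates are integers; the geometry is that of real 3-space `Fin 3 → ℝ`.
-/

set_option autoImplicit false

namespace Pool.Agent.U446.OB

/-- The point of real 3-space with the integer coordinates `p`. -/
def pt (p : Fin 3 → ℤ) : Fin 3 → ℝ := fun k => (p k : ℝ)

/-- The axis-parallel box `[lo 0, hi 0] × [lo 1, hi 1] × [lo 2, hi 2]` in real 3-space. -/
def box (lo hi : Fin 3 → ℤ) : Set (Fin 3 → ℝ) :=
  Set.pi Set.univ fun k => Set.Icc (lo k : ℝ) (hi k : ℝ)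

/-- The grid points `p` and `q` differ in at most one coordinate, so that the segment from `p`
to `q` is parallel to an axis (or is a single point). -/
def AxisParallel (p q : Fin 3 → ℤ) : Prop := ∃ k, ∀ l, l ≠ k → p l = q l

/-- The polygonal path (as a point set) from `s` by way of `b` to `t`. -/
def route (s b t : Fin 3 → ℤ) : Set (Fin 3 → ℝ) :=
  segment ℝ (pt s) (pt b) ∪ segment ℝ (pt b) (pt t)

/-- A three-dimensional orthogonal box drawing of the complete graph `K_n` (on the vertex set
`Fin n`) in which every route has at most one bend.  Vertex `v` is the grid box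
`box (lo v) (hi v)`.  The edge between `u < v` is routed from the grid point `s u v` on the
surface of the box of `u` to the grid point `t u v` on the surface of the box of `v`, by two
axis-parallel segments that meet in the grid point `b u v` (one or both may be degenerate, or both
may be parallel to the same axis).  -/
structure Drawing (n : ℕ) where
  /-- lower corner of the box of a vertex -/
  lo : Fin n → Fin 3 → ℤ
  /-- upper corner of the box of a vertex -/
  hi : Fin n → Fin 3 → ℤ
  lo_le_hi : ∀ v k, lo v k ≤ hi v k
  boxes_disjoint : ∀ u v, u ≠ v → Disjoint (box (lo u) (hi u)) (box (lo v) (hi v))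
  /-- start of the route of the edge between `u < v` -/
  s : Fin n → Fin n → Fin 3 → ℤ
  /-- the point where the two segments of the route meet -/
  b : Fin n → Fin n → Fin 3 → ℤ
  /-- end of the route of the edge between `u < v` -/
  t : Fin n → Fin n → Fin 3 → ℤ
  parallel₁ : ∀ u v, u < v → AxisParallel (s u v) (b u v)
  parallel₂ : ∀ u v, u < v → AxisParallel (b u v) (t u v)
  start_mem : ∀ u v, u < v → pt (s u v) ∈ frontier (box (lo u) (hi u))
  end_mem : ∀ u v, u < v → pt (t u v) ∈ frontier (box (lo v) (hi v))
  /-- apart from its end points a route meets no box -/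
  avoids : ∀ u v, u < v → ∀ w, ∀ x ∈ route (s u v) (b u v) (t u v),
    x ∈ box (lo w) (hi w) → x = pt (s u v) ∨ x = pt (t u v)
  /-- the routes of distinct edges are disjoint -/
  routes_disjoint : ∀ u v u' v', u < v → u' < v' → (u, v) ≠ (u', v') →
    Disjoint (route (s u v) (b u v) (t u v)) (route (s u' v') (b u' v') (t u' v'))

/-- The whole drawing (all boxes and all routes) lies in the grid box `box A B`. -/
def Drawing.InBox {n : ℕ} (D : Drawing n) (A B : Fin 3 → ℤ) : Prop :=
  (∀ v, box (D.lo v) (D.hi v) ⊆ box A B) ∧
    ∀ u v, u < v → route (D.s u v) (D.b u v) (D.t u v) ⊆ box A B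

/-- `V1 n` is the minimum volume of a three-dimensional orthogonal 1-bend box drawing of `K_n`:
the least number of grid points of an axis-parallel box with integer corners that contains such a
drawing (`Finset.Icc A B` is the set of grid points of `box A B`). -/
noncomputable def V1 (n : ℕ) : ℕ :=
  sInf {m | ∃ D : Drawing n, ∃ A B : Fin 3 → ℤ, D.InBox A B ∧ m = (Finset.Icc A B).card}

end Pool.Agent.U446.OB
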