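import Pool.Agent.U446.OB.Core
import Pool.Agent.U446.OB.Defs

/-!
# Lower bound for the volume of one-bend orthogonal box drawings of `K_n`
-/

set_option autoImplicit false

namespace Pool.Agent.U446.OB

theorem pt_mem_box {lo hi x : Fin 3 → ℤ} : pt x ∈ box lo hi ↔ ∀ k, lo k ≤ x k ∧ x k ≤ hi k := by
  simp only [box, Set.mem_pi, Set.mem_univ, true_implies, Set.mem_Icc, pt, Int.cast_le]

theorem pt_inj {x y : Fin 3 → ℤ} (h : pt x = pt y) : x = y := by
  funext k
  have := congrFun h k
  simpa [pt] using this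

theorem isClosed_box (lo hi : Fin 3 → ℤ) : IsClosed (box lo hi) :=
  isClosed_set_pi fun _ _ => isClosed_Icc

theorem mem_segment {p q x : Fin 3 → ℤ} (h : AxisParallel p q)
    (hx : ∀ k, min (p k) (q k) ≤ x k ∧ x k ≤ max (p k) (q k)) :
    pt x ∈ segment ℝ (pt p) (pt q) := by
  obtain ⟨k, hk⟩ := h
  have hother : ∀ l, l ≠ k → x l = p l := by
    intro l hl
    have := hx l
    rw [hk l hl] at this ⊢
    simp only [min_self, max_self] at this
    omega
  by_cases hpq : p k = q k
  · have hxp : x = p := by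
      funext l
      by_cases hl : l = k
      · subst hl
        have := hx l
        rw [← hpq] at this
        simp only [min_self, max_self] at this
        omega
      · exact hother l hl
    rw [hxp]
    exact left_mem_segment ℝ _ _
  · rw [segment_eq_image]
    have hxk := hx k
    have hne : ((q k : ℝ) - p k) ≠ 0 := by
      intro h0
      apply hpq
      have : (q k : ℝ) = p k := by linarith
      exact_mod_cast this.symm
    refine ⟨((x k : ℝ) - p k) / ((q k : ℝ) - p k), ⟨?_, ?_⟩, ?_⟩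
    · rcases lt_or_gt_of_ne hpq with hlt | hlt
      · have h1 : (p k : ℝ) ≤ x k := by exact_mod_cast (by omega : p k ≤ x k)
        have h2 : (p k : ℝ) < q k := by exact_mod_cast hlt
        exact div_nonneg (by linarith) (by linarith)
      · have h1 : (x k : ℝ) ≤ p k := by exact_mod_cast (by omega : x k ≤ p k)
        have h2 : (q k : ℝ) < p k := by exact_mod_cast hlt
        exact div_nonneg_of_nonpos (by linarith) (by linarith)
    · rcases lt_or_gt_of_ne hpq with hlt | hlt
      · have h1 : (x k : ℝ) ≤ q k := by exact_mod_cast (by omega : x k ≤ q k)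
        have h2 : (p k : ℝ) < q k := by exact_mod_cast hlt
        rw [div_le_one (by linarith)]
        linarith
      · have h1 : (q k : ℝ) ≤ x k := by exact_mod_cast (by omega : q k ≤ x k)
        have h2 : (q k : ℝ) < p k := by exact_mod_cast hlt
        rw [div_le_one_of_neg (by linarith)]
        linarith
    · funext l
      by_cases hl : l = k
      · subst hl
        simp only [pt, Pi.add_apply, Pi.smul_apply, smul_eq_mul]
        field_simp
        ring
      · have e1 := hother l hl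
        have e2 := hk l hl
        simp only [pt, Pi.add_apply, Pi.smul_apply, smul_eq_mul]
        rw [e1, e2]
        ring

variable {n : ℕ} (D : Drawing n)

theorem Drawing.start_mem' {u v : Fin n} (h : u < v) (k : Fin 3) :
    D.lo u k ≤ D.s u v k ∧ D.s u v k ≤ D.hi u k := by
  have := (isClosed_box _ _).frontier_subset (D.start_mem u v h)
  exact pt_mem_box.1 this k

theorem Drawing.end_mem' {u v : Fin n} (h : u < v) (k : Fin 3) :
    D.lo v k ≤ D.t u v k ∧ D.t u v k ≤ D.hi v k := by
  have := (isClosed_box _ _).frontier_subset (D.end_mem u v h)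
  exact pt_mem_box.1 this k

theorem Drawing.sep {u v : Fin n} (h : u ≠ v) : ∃ k, D.hi u k < D.lo v k ∨ D.hi v k < D.lo u k := by
  by_contra hcon
  push Not at hcon
  have h1 := D.boxes_disjoint u v h
  rw [Set.disjoint_left] at h1
  refine h1 (a := pt fun k => max (D.lo u k) (D.lo v k)) ?_ ?_
  · rw [pt_mem_box]
    intro k
    have := hcon k
    have := D.lo_le_hi u k
    have := D.lo_le_hi v k
    omega
  · rw [pt_mem_box]
    intro k
    have := hcon k
    have := D.lo_le_hi u k
    have := D.lo_le_hi v k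
    omega

theorem exists_third : ∀ a b : Fin 3, ∃ k, k ≠ a ∧ k ≠ b := by decide

theorem exists_others : ∀ c : Fin 3, ∃ a b : Fin 3, a ≠ b ∧ a ≠ c ∧ b ≠ c ∧
    ∀ k, k = a ∨ k = b ∨ k = c := by decide

theorem Drawing.agree {u v : Fin n} (h : u < v) : ∃ k, D.s u v k = D.t u v k := by
  obtain ⟨k1, h1⟩ := D.parallel₁ u v h
  obtain ⟨k2, h2⟩ := D.parallel₂ u v h
  obtain ⟨k, hk1, hk2⟩ := exists_third k1 k2
  exact ⟨k, (h1 k hk1).trans (h2 k hk2)⟩

open scoped Classical in
/-- Long routes are few. -/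
theorem long_card (A B : Fin 3 → ℤ) (hin : D.InBox A B) (g : ℕ)
    (L : Finset (Fin n × Fin n))
    (hL : ∀ p ∈ L, p.1 < p.2 ∧ ∃ k, (g : ℤ) < |D.s p.1 p.2 k - D.t p.1 p.2 k|) :
    L.card * (g + 1) ≤ (Finset.Icc A B).card := by
  set R : Fin n × Fin n → Finset (Fin 3 → ℤ) := fun p =>
    (Finset.Icc A B).filter
      (fun x => pt x ∈ route (D.s p.1 p.2) (D.b p.1 p.2) (D.t p.1 p.2)) with hR
  have hdisj : (L : Set (Fin n × Fin n)).PairwiseDisjoint R := by
    intro p hp q hq hpq
    have h1 := D.routes_disjoint p.1 p.2 q.1 q.2 (hL p hp).1 (hL q hq).1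
      (by intro h; apply hpq; exact h)
    rw [Function.onFun, Finset.disjoint_left]
    intro x hx hy
    rw [hR] at hx hy
    simp only [Finset.mem_filter] at hx hy
    exact (Set.disjoint_left.1 h1) hx.2 hy.2
  have hcard : ∀ p ∈ L, g + 1 ≤ (R p).card := by
    intro p hp
    obtain ⟨hlt, k, hk⟩ := hL p hp
    set s := D.s p.1 p.2 with hs
    set b := D.b p.1 p.2 with hb
    set t := D.t p.1 p.2 with ht
    have hsub : Finset.Icc (min (s k) (t k)) (max (s k) (t k)) ⊆ (R p).image (fun x => x k) := by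
      intro c hc
      rw [Finset.mem_Icc] at hc
      rw [Finset.mem_image]
      have hc' : (min (s k) (b k) ≤ c ∧ c ≤ max (s k) (b k)) ∨
          (min (b k) (t k) ≤ c ∧ c ≤ max (b k) (t k)) := by omega
      have hex : ∃ x : Fin 3 → ℤ, x k = c ∧ pt x ∈ route s b t := by
        rcases hc' with hc' | hc'
        · refine ⟨Function.update s k c, by simp, Or.inl (mem_segment (D.parallel₁ _ _ hlt) ?_)⟩
          intro l
          by_cases hl : l = k
          · subst hl
            rw [Function.update_self]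
            exact hc'
          · rw [Function.update_of_ne hl]
            constructor
            · exact min_le_left _ _
            · exact le_max_left _ _
        · refine ⟨Function.update b k c, by simp, Or.inr (mem_segment (D.parallel₂ _ _ hlt) ?_)⟩
          intro l
          by_cases hl : l = k
          · subst hl
            rw [Function.update_self]
            exact hc'
          · rw [Function.update_of_ne hl]
            constructor
            · exact min_le_left _ _
            · exact le_max_left _ _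
      obtain ⟨x, hx1, hx2⟩ := hex
      refine ⟨x, ?_, hx1⟩
      rw [hR]
      simp only [Finset.mem_filter, Finset.mem_Icc]
      refine ⟨?_, hx2⟩
      have := hin.2 _ _ hlt hx2
      rw [pt_mem_box] at this
      exact ⟨fun l => (this l).1, fun l => (this l).2⟩
    have h1 := Finset.card_le_card hsub
    have h2 : ((R p).image (fun x => x k)).card ≤ (R p).card := Finset.card_image_le
    rw [Int.card_Icc] at h1
    have h3 : (g : ℤ) + 1 ≤ max (s k) (t k) + 1 - min (s k) (t k) := by
      rcases abs_cases (s k - t k) with ⟨e, _⟩ | ⟨e, _⟩ <;> rw [e] at hk <;> omega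
    omega
  calc L.card * (g + 1) = ∑ _p ∈ L, (g + 1) := by rw [Finset.sum_const, smul_eq_mul]
    _ ≤ ∑ p ∈ L, (R p).card := Finset.sum_le_sum hcard
    _ = (L.biUnion R).card := (Finset.card_biUnion hdisj).symm
    _ ≤ (Finset.Icc A B).card := by
      apply Finset.card_le_card
      intro x hx
      rw [Finset.mem_biUnion] at hx
      obtain ⟨p, _, hp⟩ := hx
      exact (Finset.mem_filter.1 hp).1

/-- The basic estimate: `n ≤ 6 (N - 1) + 1` boxes cross a common plane, and `N² (N-1)` is at most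
`320` times the volume. -/
theorem lower_aux (hn : 1 ≤ n) (A B : Fin 3 → ℤ) (hin : D.InBox A B) :
    ∃ M : ℕ, n ≤ 6 * M + 1 ∧ (M + 1) * (M + 1) * M ≤ 320 * (Finset.Icc A B).card := by
  classical
  -- a direction in which many pairs overlap
  set T : Finset (Fin n × Fin n) :=
    ((Finset.univ : Finset (Fin n)) ×ˢ Finset.univ).filter (fun p => p.1 < p.2) with hT
  have hTcard : n * (n - 1) ≤ 2 * T.card := by
    have := card_lt_pairs (Finset.univ : Finset (Fin n))
    rwa [Finset.card_univ, Fintype.card_fin] at this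
  have hTO : T.card ≤ ∑ k : Fin 3,
      (T.filter (fun p => D.lo p.1 k ≤ D.hi p.2 k ∧ D.lo p.2 k ≤ D.hi p.1 k)).card := by
    have hsub : T ⊆ (Finset.univ : Finset (Fin 3)).biUnion (fun k =>
        T.filter (fun p => D.lo p.1 k ≤ D.hi p.2 k ∧ D.lo p.2 k ≤ D.hi p.1 k)) := by
      intro p hp
      have hlt : p.1 < p.2 := (Finset.mem_filter.1 hp).2
      obtain ⟨k, hk⟩ := D.agree hlt
      have h1 := D.start_mem' hlt k
      have h2 := D.end_mem' hlt k
      rw [Finset.mem_biUnion]
      refine ⟨k, Finset.mem_univ _, Finset.mem_filter.2 ⟨hp, by omega, by omega⟩⟩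
    exact (Finset.card_le_card hsub).trans Finset.card_biUnion_le
  obtain ⟨c, hc⟩ : ∃ c : Fin 3, T.card ≤ 3 *
      (T.filter (fun p => D.lo p.1 c ≤ D.hi p.2 c ∧ D.lo p.2 c ≤ D.hi p.1 c)).card := by
    by_contra hcon
    push Not at hcon
    rw [Fin.sum_univ_three] at hTO
    have h0 := hcon 0
    have h1 := hcon 1
    have h2 := hcon 2
    omega
  obtain ⟨z, hz1, hz2⟩ := clique hn (fun v => D.lo v c) (fun v => D.hi v c)
    (fun v => D.lo_le_hi v c)
    (T.filter (fun p => D.lo p.1 c ≤ D.hi p.2 c ∧ D.lo p.2 c ≤ D.hi p.1 c)) (by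
      intro p hp
      rw [Finset.mem_filter, hT, Finset.mem_filter] at hp
      exact ⟨hp.1.2, hp.2.1, hp.2.2⟩)
  set S : Finset (Fin n) := Finset.univ.filter (fun u => D.lo u c ≤ z ∧ z ≤ D.hi u c) with hSdef
  obtain ⟨M, hM⟩ : ∃ M, S.card = M + 1 := ⟨S.card - 1, by
    have : 1 ≤ S.card := hz1
    omega⟩
  have hz2' : (T.filter (fun p => D.lo p.1 c ≤ D.hi p.2 c ∧ D.lo p.2 c ≤ D.hi p.1 c)).card ≤
      n * M := by
    have : (T.filter (fun p => D.lo p.1 c ≤ D.hi p.2 c ∧ D.lo p.2 c ≤ D.hi p.1 c)).card ≤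
      n * (S.card - 1) := by convert hz2
    rw [hM] at this
    simpa using this
  refine ⟨M, ?_, ?_⟩
  · have h1 : n * (n - 1) ≤ n * (6 * M) := by nlinarith
    have h2 := Nat.le_of_mul_le_mul_left h1 (by omega)
    omega
  -- the two other directions
  obtain ⟨a, b, hab, hac, hbc, hall⟩ := exists_others c
  set g : ℕ := M / 80 with hg
  set P : Finset (Fin n × Fin n) := (S ×ˢ S).filter (fun p => p.1 < p.2) with hP
  have hPcard : (M + 1) * M ≤ 2 * P.card := by
    have := card_lt_pairs S
    rw [hM] at this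
    simpa using this
  set Q : Fin n × Fin n → Prop := fun p =>
    (|D.s p.1 p.2 a - D.t p.1 p.2 a| ≤ g ∧ |D.s p.1 p.2 b - D.t p.1 p.2 b| ≤ g) with hQ
  have hsplit : P.card = (P.filter Q).card + (P.filter (fun p => ¬ Q p)).card :=
    (Finset.card_filter_add_card_filter_not (s := P) Q).symm
  have hlong : (P.filter (fun p => ¬ Q p)).card * (g + 1) ≤ (Finset.Icc A B).card := by
    apply long_card D A B hin
    intro p hp
    rw [Finset.mem_filter, hP, Finset.mem_filter] at hp
    refine ⟨hp.1.2, ?_⟩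
    have hq := hp.2
    rw [hQ] at hq
    simp only [not_and_or, not_le] at hq
    rcases hq with hq | hq
    · exact ⟨a, hq⟩
    · exact ⟨b, hq⟩
  have hdis : ∀ u v, u ≠ v → D.hi u a < D.lo v a ∨ D.hi v a < D.lo u a ∨ D.hi u b < D.lo v b ∨
      D.hi v b < D.lo u b ∨ D.hi u c < D.lo v c ∨ D.hi v c < D.lo u c := by
    intro u v huv
    obtain ⟨k, hk⟩ := D.sep huv
    rcases hall k with e | e | e <;> rw [e] at hk
    · rcases hk with hk | hk
      · exact Or.inl hk
      · exact Or.inr (Or.inl hk)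
    · rcases hk with hk | hk
      · exact Or.inr (Or.inr (Or.inl hk))
      · exact Or.inr (Or.inr (Or.inr (Or.inl hk)))
    · rcases hk with hk | hk
      · exact Or.inr (Or.inr (Or.inr (Or.inr (Or.inl hk))))
      · exact Or.inr (Or.inr (Or.inr (Or.inr (Or.inr hk))))
  have hS : ∀ u ∈ S, D.lo u c ≤ z ∧ z ≤ D.hi u c := by
    intro u hu
    rw [hSdef, Finset.mem_filter] at hu
    exact hu.2
  have hshort : (P.filter Q).card ≤ 20 * g * S.card := by
    refine card_short (fun u => D.lo u a) (fun u => D.hi u a) (fun u => D.lo u b)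
      (fun u => D.hi u b) (fun u => D.lo u c) (fun u => D.hi u c) hdis
      (fun u => D.lo_le_hi u a) (fun u => D.lo_le_hi u b) S z hS g _ ?_
    intro p hp
    rw [Finset.mem_filter, hP, Finset.mem_filter, Finset.mem_product] at hp
    obtain ⟨⟨⟨hi, hj⟩, hlt⟩, hq⟩ := hp
    rw [hQ] at hq
    have hq1 := abs_le.1 hq.1
    have hq2 := abs_le.1 hq.2
    refine ⟨hi, hj, hlt, ?_⟩
    have hs := fun k => D.start_mem' hlt k
    have ht := fun k => D.end_mem' hlt k
    have hpar : ∀ x y : Fin 3 → ℤ, AxisParallel x y →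
        (x b = y b ∧ x c = y c) ∨ (x a = y a ∧ x c = y c) ∨ (x a = y a ∧ x b = y b) := by
      rintro x y ⟨k, hk⟩
      rcases hall k with e | e | e <;> rw [e] at hk
      · exact Or.inl ⟨hk b hab.symm, hk c hac.symm⟩
      · exact Or.inr (Or.inl ⟨hk a hab, hk c hbc.symm⟩)
      · exact Or.inr (Or.inr ⟨hk a hac, hk b hbc⟩)
    refine rel_of_route (fun u => D.lo u a) (fun u => D.hi u a) (fun u => D.lo u b)
      (fun u => D.hi u b) (fun u => D.lo u c) (fun u => D.hi u c) S z hS g hdis
      (fun u => D.lo_le_hi u a) (fun u => D.lo_le_hi u b) p.1 p.2 hi hj hlt.ne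
      (D.s p.1 p.2 a) (D.s p.1 p.2 b) (D.s p.1 p.2 c)
      (D.b p.1 p.2 a) (D.b p.1 p.2 b) (D.b p.1 p.2 c)
      (D.t p.1 p.2 a) (D.t p.1 p.2 b) (D.t p.1 p.2 c)
      ⟨(hs a).1, (hs a).2, (hs b).1, (hs b).2, (hs c).1, (hs c).2⟩
      ⟨(ht a).1, (ht a).2, (ht b).1, (ht b).2, (ht c).1, (ht c).2⟩
      (hpar _ _ (D.parallel₁ _ _ hlt)) (hpar _ _ (D.parallel₂ _ _ hlt)) ?_ ?_ ?_
    · intro w _ x y h hrange w1 w2 w3 w4 w5 w6
      set X : Fin 3 → ℤ := fun k => if k = a then x else if k = b then y else h with hX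
      have Xa : X a = x := by simp [hX]
      have Xb : X b = y := by simp [hX, hab.symm]
      have Xc : X c = h := by simp [hX, hac.symm, hbc.symm]
      have hmem : pt X ∈ route (D.s p.1 p.2) (D.b p.1 p.2) (D.t p.1 p.2) := by
        rcases hrange with hr | hr
        · refine Or.inl (mem_segment (D.parallel₁ _ _ hlt) ?_)
          intro k
          rcases hall k with e | e | e <;> rw [e]
          · rw [Xa]; exact ⟨hr.1, hr.2.1⟩
          · rw [Xb]; exact ⟨hr.2.2.1, hr.2.2.2.1⟩
          · rw [Xc]; exact ⟨hr.2.2.2.2.1, hr.2.2.2.2.2⟩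
        · refine Or.inr (mem_segment (D.parallel₂ _ _ hlt) ?_)
          intro k
          rcases hall k with e | e | e <;> rw [e]
          · rw [Xa]; exact ⟨hr.1, hr.2.1⟩
          · rw [Xb]; exact ⟨hr.2.2.1, hr.2.2.2.1⟩
          · rw [Xc]; exact ⟨hr.2.2.2.2.1, hr.2.2.2.2.2⟩
      have hbox : pt X ∈ box (D.lo w) (D.hi w) := by
        rw [pt_mem_box]
        intro k
        rcases hall k with e | e | e <;> rw [e]
        · rw [Xa]; exact ⟨w1, w2⟩
        · rw [Xb]; exact ⟨w3, w4⟩
        · rw [Xc]; exact ⟨w5, w6⟩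
      rcases D.avoids _ _ hlt w _ hmem hbox with e | e
      · have e' := pt_inj e
        left
        rw [← Xa, ← Xb, ← Xc, e']
        exact ⟨rfl, rfl, rfl⟩
      · have e' := pt_inj e
        right
        rw [← Xa, ← Xb, ← Xc, e']
        exact ⟨rfl, rfl, rfl⟩
    · constructor <;> omega
    · constructor <;> omega
  rw [hM] at hshort
  have hg1 : 80 * g ≤ M := by omega
  have hg2 : M + 1 ≤ 80 * (g + 1) := by omega
  set Lc := (P.filter (fun p => ¬ Q p)).card with hLc
  have h1 : (M + 1) * M ≤ 4 * Lc := by nlinarith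
  calc (M + 1) * (M + 1) * M = (M + 1) * ((M + 1) * M) := by ring
    _ ≤ (80 * (g + 1)) * (4 * Lc) := Nat.mul_le_mul hg2 h1
    _ = 320 * (Lc * (g + 1)) := by ring
    _ ≤ 320 * (Finset.Icc A B).card := Nat.mul_le_mul_left _ hlong

/-- Every one-bend drawing of `K_n` has volume at least `n³ / 69120`. -/
theorem lower (hn : 1 ≤ n) (A B : Fin 3 → ℤ) (hin : D.InBox A B) :
    n ^ 3 ≤ 69120 * (Finset.Icc A B).card := by
  obtain ⟨M, h1, h2⟩ := lower_aux D hn A B hin
  have hpos : 1 ≤ (Finset.Icc A B).card := by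
    rw [Nat.one_le_iff_ne_zero, ← Nat.pos_iff_ne_zero, Finset.card_pos]
    have h3 := hin.1 ⟨0, hn⟩ (pt_mem_box.2 fun k => ⟨le_rfl, D.lo_le_hi ⟨0, hn⟩ k⟩)
    rw [pt_mem_box] at h3
    exact ⟨D.lo ⟨0, hn⟩, Finset.mem_Icc.2 ⟨fun k => (h3 k).1, fun k => (h3 k).2⟩⟩
  rcases Nat.lt_or_ge n 2 with hn2 | hn2
  · have : n = 1 := by omega
    subst this
    omega
  · have hM : 1 ≤ M := by omega
    have h3 : n ^ 3 ≤ 216 * ((M + 1) * (M + 1) * M) := by
      have e1 : n ^ 3 ≤ (6 * M + 1) ^ 3 := Nat.pow_le_pow_left h1 3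
      refine e1.trans ?_
      nlinarith [sq_nonneg (M - 1), hM, Nat.mul_le_mul hM hM]
    calc n ^ 3 ≤ 216 * ((M + 1) * (M + 1) * M) := h3
      _ ≤ 216 * (320 * (Finset.Icc A B).card) := Nat.mul_le_mul_left _ h2
      _ = 69120 * (Finset.Icc A B).card := by ring

end Pool.Agent.U446.OB
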