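import Pool.Agent.U446.OB.Lower

/-!
# A one-bend orthogonal box drawing of `K_n` of volume at most `3 n³`
-/

set_option autoImplicit false

namespace Pool.Agent.U446.OB

theorem mem_box {lo hi : Fin 3 → ℤ} {x : Fin 3 → ℝ} :
    x ∈ box lo hi ↔ ∀ k, (lo k : ℝ) ≤ x k ∧ x k ≤ hi k := by
  simp only [box, Set.mem_pi, Set.mem_univ, true_implies, Set.mem_Icc]

theorem between {p q : Fin 3 → ℤ} {x : Fin 3 → ℝ} (hx : x ∈ segment ℝ (pt p) (pt q))
    (k : Fin 3) : min (p k : ℝ) (q k) ≤ x k ∧ x k ≤ max (p k : ℝ) (q k) := by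
  obtain ⟨a, b, ha, hb, hab, rfl⟩ := hx
  simp only [pt, Pi.add_apply, Pi.smul_apply, smul_eq_mul]
  constructor
  · have h1 := mul_le_mul_of_nonneg_left (min_le_left (p k : ℝ) (q k)) ha
    have h2 := mul_le_mul_of_nonneg_left (min_le_right (p k : ℝ) (q k)) hb
    calc min (p k : ℝ) (q k) = (a + b) * min (p k : ℝ) (q k) := by rw [hab, one_mul]
      _ ≤ _ := by linarith
  · have h1 := mul_le_mul_of_nonneg_left (le_max_left (p k : ℝ) (q k)) ha
    have h2 := mul_le_mul_of_nonneg_left (le_max_right (p k : ℝ) (q k)) hb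
    calc _ ≤ (a + b) * max (p k : ℝ) (q k) := by linarith
      _ = max (p k : ℝ) (q k) := by rw [hab, one_mul]

theorem mem_frontier {lo hi p : Fin 3 → ℤ} (h0 : lo 0 = hi 0) (hp : pt p ∈ box lo hi) :
    pt p ∈ frontier (box lo hi) := by
  rw [(isClosed_box lo hi).frontier_eq]
  refine ⟨hp, fun hint => ?_⟩
  rw [box, interior_pi_set Set.finite_univ] at hint
  have : pt p 0 ∈ interior (Set.Icc (lo 0 : ℝ) (hi 0)) := hint 0 (Set.mem_univ _)
  rw [interior_Icc, h0] at this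
  exact absurd (this.1.trans this.2) (lt_irrefl _)

/-- lower corner, upper corner and route points of the standard drawing -/
def v3 (a b c : ℤ) : Fin 3 → ℤ := ![a, b, c]

@[simp] theorem v3_0 (a b c : ℤ) : v3 a b c 0 = a := rfl
@[simp] theorem v3_1 (a b c : ℤ) : v3 a b c 1 = b := rfl
@[simp] theorem v3_2 (a b c : ℤ) : v3 a b c 2 = c := rfl

theorem pt_ext {x : Fin 3 → ℝ} {a b c : ℤ} (h0 : x 0 = a) (h1 : x 1 = b) (h2 : x 2 = c) :
    x = pt (v3 a b c) := by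
  funext k
  fin_cases k
  · exact h0
  · exact h1
  · exact h2

theorem seg1 {u v : ℤ} (huv : u < v) {x : Fin 3 → ℝ}
    (hx : x ∈ segment ℝ (pt (v3 u u (u + v))) (pt (v3 v u (u + v)))) :
    (u : ℝ) ≤ x 0 ∧ x 0 ≤ v ∧ x 1 = u ∧ x 2 = u + v := by
  have h0 := between hx 0
  have h1 := between hx 1
  have h2 := between hx 2
  have huv' : (u : ℝ) < v := by exact_mod_cast huv
  simp only [v3_0, v3_1, v3_2, min_self, max_self, min_eq_left huv'.le,
    max_eq_right huv'.le] at h0 h1 h2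
  push_cast at h2
  exact ⟨h0.1, h0.2, le_antisymm h1.2 h1.1, le_antisymm h2.2 h2.1⟩

theorem seg2 {u v : ℤ} (huv : u < v) {x : Fin 3 → ℝ}
    (hx : x ∈ segment ℝ (pt (v3 v u (u + v))) (pt (v3 v v (u + v)))) :
    (u : ℝ) ≤ x 1 ∧ x 1 ≤ v ∧ x 0 = v ∧ x 2 = u + v := by
  have h0 := between hx 0
  have h1 := between hx 1
  have h2 := between hx 2
  have huv' : (u : ℝ) < v := by exact_mod_cast huv
  simp only [v3_0, v3_1, v3_2, min_self, max_self, min_eq_left huv'.le,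
    max_eq_right huv'.le] at h0 h1 h2
  push_cast at h2
  exact ⟨h1.1, h1.2, le_antisymm h0.2 h0.1, le_antisymm h2.2 h2.1⟩

theorem box3 {a b c a' b' c' : ℤ} {x : Fin 3 → ℝ} :
    x ∈ box (v3 a b c) (v3 a' b' c') ↔ ((a : ℝ) ≤ x 0 ∧ x 0 ≤ a') ∧ ((b : ℝ) ≤ x 1 ∧ x 1 ≤ b') ∧
      ((c : ℝ) ≤ x 2 ∧ x 2 ≤ c') := by
  rw [mem_box, Fin.forall_fin_succ, Fin.forall_fin_succ, Fin.forall_fin_succ]
  simp only [v3_0, Fin.succ_zero_eq_one, v3_1]
  constructor
  · rintro ⟨h0, h1, h2, -⟩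
    exact ⟨h0, h1, h2⟩
  · rintro ⟨h0, h1, h2⟩
    exact ⟨h0, h1, h2, fun i => i.elim0⟩

theorem routes_ne {u v u' v' : ℤ} (h : u < v) (h' : u' < v') {x : Fin 3 → ℝ}
    (hx : x ∈ route (v3 u u (u + v)) (v3 v u (u + v)) (v3 v v (u + v)))
    (hx' : x ∈ route (v3 u' u' (u' + v')) (v3 v' u' (u' + v')) (v3 v' v' (u' + v'))) :
    u = u' ∧ v = v' := by
  rcases hx with hx | hx <;> rcases hx' with hx' | hx'
  · obtain ⟨a1, a2, a3, a4⟩ := seg1 h hx
    obtain ⟨b1, b2, b3, b4⟩ := seg1 h' hx'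
    have e1 : u = u' := by exact_mod_cast a3.symm.trans b3
    have e2 : u + v = u' + v' := by exact_mod_cast a4.symm.trans b4
    omega
  · obtain ⟨a1, a2, a3, a4⟩ := seg1 h hx
    obtain ⟨b1, b2, b3, b4⟩ := seg2 h' hx'
    rw [b3] at a1 a2
    rw [a3] at b1 b2
    have e2 : u + v = u' + v' := by exact_mod_cast a4.symm.trans b4
    have c2 : v' ≤ v := by exact_mod_cast a2
    have d1 : u' ≤ u := by exact_mod_cast b1
    omega
  · obtain ⟨a1, a2, a3, a4⟩ := seg2 h hx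
    obtain ⟨b1, b2, b3, b4⟩ := seg1 h' hx'
    rw [b3] at a1 a2
    rw [a3] at b1 b2
    have e2 : u + v = u' + v' := by exact_mod_cast a4.symm.trans b4
    have c2 : v ≤ v' := by exact_mod_cast b2
    have d1 : u ≤ u' := by exact_mod_cast a1
    omega
  · obtain ⟨a1, a2, a3, a4⟩ := seg2 h hx
    obtain ⟨b1, b2, b3, b4⟩ := seg2 h' hx'
    have e1 : v = v' := by exact_mod_cast a3.symm.trans b3
    have e2 : u + v = u' + v' := by exact_mod_cast a4.symm.trans b4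
    omega

/-- The standard drawing: vertex `v` is the segment from `(v, v, 0)` to `(v, v, 2n)`, the edge
`u < v` runs in the plane of height `u + v` through `(v, u)`. -/
def std (n : ℕ) : Drawing n where
  lo v := v3 v v 0
  hi v := v3 v v (2 * n)
  lo_le_hi v k := by
    fin_cases k
    · exact le_rfl
    · exact le_rfl
    · show (0 : ℤ) ≤ 2 * n
      positivity
  boxes_disjoint u v huv := by
    rw [Set.disjoint_left]
    intro x hx hy
    rw [box3] at hx hy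
    apply huv
    have e1 : x 0 = u := by
      have := hx.1
      push_cast at this
      linarith [this.1, this.2]
    have e2 : x 0 = v := by
      have := hy.1
      push_cast at this
      linarith [this.1, this.2]
    have : ((u : ℕ) : ℝ) = (v : ℕ) := e1.symm.trans e2
    exact Fin.ext (by exact_mod_cast this)
  s u v := v3 u u ((u : ℤ) + v)
  b u v := v3 v u ((u : ℤ) + v)
  t u v := v3 v v ((u : ℤ) + v)
  parallel₁ u v _ := ⟨0, fun l hl => by fin_cases l <;> first | rfl | exact absurd rfl hl⟩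
  parallel₂ u v _ := ⟨1, fun l hl => by fin_cases l <;> first | rfl | exact absurd rfl hl⟩
  start_mem u v _ := by
    refine mem_frontier rfl ?_
    rw [box3]
    have hu := u.2
    have hv := v.2
    refine ⟨⟨le_rfl, le_rfl⟩, ⟨le_rfl, le_rfl⟩, ?_, ?_⟩
    · show (((0 : ℤ) : ℝ)) ≤ (((u : ℤ) + v : ℤ) : ℝ)
      exact_mod_cast (by omega : (0 : ℤ) ≤ (u : ℤ) + v)
    · show ((((u : ℤ) + v : ℤ) : ℝ)) ≤ ((2 * n : ℤ) : ℝ)
      exact_mod_cast (by omega : (u : ℤ) + v ≤ 2 * n)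
  end_mem u v _ := by
    refine mem_frontier rfl ?_
    rw [box3]
    have hu := u.2
    have hv := v.2
    refine ⟨⟨le_rfl, le_rfl⟩, ⟨le_rfl, le_rfl⟩, ?_, ?_⟩
    · show (((0 : ℤ) : ℝ)) ≤ (((u : ℤ) + v : ℤ) : ℝ)
      exact_mod_cast (by omega : (0 : ℤ) ≤ (u : ℤ) + v)
    · show ((((u : ℤ) + v : ℤ) : ℝ)) ≤ ((2 * n : ℤ) : ℝ)
      exact_mod_cast (by omega : (u : ℤ) + v ≤ 2 * n)
  avoids u v huv w x hx hw := by
    have huv' : ((u : ℕ) : ℤ) < (v : ℕ) := by exact_mod_cast huv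
    rw [box3] at hw
    have e0 : x 0 = ((w : ℕ) : ℤ) := le_antisymm hw.1.2 hw.1.1
    have e1 : x 1 = ((w : ℕ) : ℤ) := le_antisymm hw.2.1.2 hw.2.1.1
    rcases hx with hx | hx
    · obtain ⟨a1, a2, a3, a4⟩ := seg1 huv' hx
      left
      refine pt_ext ?_ a3 (by rw [a4]; push_cast; ring)
      rw [e0, ← e1, a3]
    · obtain ⟨a1, a2, a3, a4⟩ := seg2 huv' hx
      right
      refine pt_ext a3 ?_ (by rw [a4]; push_cast; ring)
      rw [e1, ← e0, a3]
  routes_disjoint u v u' v' h h' hne := by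
    rw [Set.disjoint_left]
    intro x hx hx'
    apply hne
    have h1 : ((u : ℕ) : ℤ) < (v : ℕ) := by exact_mod_cast h
    have h2 : ((u' : ℕ) : ℤ) < (v' : ℕ) := by exact_mod_cast h'
    obtain ⟨e1, e2⟩ := routes_ne h1 h2 hx hx'
    exact Prod.ext (Fin.ext (by exact_mod_cast e1)) (Fin.ext (by exact_mod_cast e2))

theorem std_inBox (n : ℕ) : (std n).InBox (v3 0 0 0) (v3 (n - 1) (n - 1) (2 * n)) := by
  constructor
  · intro v x hx
    have hx' : x ∈ box (v3 v v 0) (v3 v v (2 * n)) := hx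
    rw [box3] at hx' ⊢
    obtain ⟨⟨a1, a2⟩, ⟨b1, b2⟩, c1, c2⟩ := hx'
    have hv := v.2
    have h0 : (((0 : ℤ)) : ℝ) ≤ ((v : ℕ) : ℤ) := by exact_mod_cast (by omega : (0 : ℤ) ≤ (v : ℕ))
    have h1 : ((((v : ℕ) : ℤ)) : ℝ) ≤ ((n - 1 : ℤ) : ℝ) := by
      exact_mod_cast (by omega : ((v : ℕ) : ℤ) ≤ n - 1)
    exact ⟨⟨by linarith, by linarith⟩, ⟨by linarith, by linarith⟩, c1, c2⟩
  · intro u v huv x hx
    have huv' : ((u : ℕ) : ℤ) < (v : ℕ) := by exact_mod_cast huv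
    have hu0 : (((0 : ℤ)) : ℝ) ≤ ((u : ℕ) : ℤ) := by exact_mod_cast (by omega : (0 : ℤ) ≤ (u : ℕ))
    have hv := v.2
    have hv1 : ((((v : ℕ) : ℤ)) : ℝ) ≤ ((n - 1 : ℤ) : ℝ) := by
      exact_mod_cast (by omega : ((v : ℕ) : ℤ) ≤ n - 1)
    have huv2 : ((((u : ℕ) : ℤ)) : ℝ) < (((v : ℕ) : ℤ) : ℝ) := by exact_mod_cast huv'
    have hsum : ((((u : ℕ) : ℤ)) : ℝ) + (((v : ℕ) : ℤ) : ℝ) ≤ ((2 * n : ℤ) : ℝ) := by
      exact_mod_cast (by omega : ((u : ℕ) : ℤ) + (v : ℕ) ≤ 2 * n)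
    have hsum0 : (((0 : ℤ)) : ℝ) ≤ ((((u : ℕ) : ℤ)) : ℝ) + (((v : ℕ) : ℤ) : ℝ) := by
      exact_mod_cast (by omega : (0 : ℤ) ≤ ((u : ℕ) : ℤ) + (v : ℕ))
    rw [box3]
    rcases hx with hx | hx
    · obtain ⟨a1, a2, a3, a4⟩ := seg1 huv' hx
      refine ⟨⟨by linarith, by linarith⟩, ⟨by linarith, by linarith⟩, ?_, ?_⟩
      · rw [a4]; exact hsum0
      · rw [a4]; exact hsum
    · obtain ⟨a1, a2, a3, a4⟩ := seg2 huv' hx
      refine ⟨⟨by linarith, by linarith⟩, ⟨by linarith, by linarith⟩, ?_, ?_⟩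
      · rw [a4]; exact hsum0
      · rw [a4]; exact hsum

theorem std_card (n : ℕ) (hn : 1 ≤ n) :
    (Finset.Icc (v3 0 0 0) (v3 (n - 1) (n - 1) (2 * n))).card ≤ 3 * n ^ 3 := by
  rw [Pi.card_Icc, Fin.prod_univ_three]
  simp only [v3_0, v3_1, v3_2, Int.card_Icc]
  have h1 : ((n : ℤ) - 1 + 1 - 0).toNat = n := by omega
  have h2 : (2 * (n : ℤ) + 1 - 0).toNat = 2 * n + 1 := by omega
  rw [h1, h2]
  have h3 : n * n * 1 ≤ n * n * n := Nat.mul_le_mul_left _ hn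
  nlinarith

end Pool.Agent.U446.OB
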